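import Mathlib

/-!
Hyperbolic uniform disk graphs which need a radius linear in the number of vertices.
-/

set_option autoImplicit false

open UpperHalfPlane

namespace Pool.Agent.Results.MP_1ad87a_co.LinearRadius

/-- `p` is a disk representation of `G` with radius `r`: distinct vertices are adjacent if and only if
their points in the hyperbolic plane (the upper half plane with its metric of curvature `-1`) are at
distance at most `2 r`. -/
def IsDiskRep {V : Type} (G : SimpleGraph V) (r : ℝ) (p : V → ℍ) : Prop :=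
  0 < r ∧ ∀ u v : V, u ≠ v → (G.Adj u v ↔ dist (p u) (p v) ≤ 2 * r)

/-- `G` is a hyperbolic uniform disk graph. -/
def IsHUDG {V : Type} (G : SimpleGraph V) : Prop :=
  ∃ (r : ℝ) (p : V → ℍ), IsDiskRep G r p

/-- `sinh (d / 2)`. -/
noncomputable def sg (z w : ℍ) : ℝ := Real.sinh (dist z w / 2)

theorem sg_nonneg (z w : ℍ) : 0 ≤ sg z w := by
  unfold sg
  exact Real.sinh_nonneg_iff.2 (by positivity)

theorem sg_comm (z w : ℍ) : sg z w = sg w z := by
  unfold sg; rw [dist_comm]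

theorem sg_eq (z w : ℍ) :
    sg z w = ‖(z : ℂ) - w‖ / (2 * (Real.sqrt z.im * Real.sqrt w.im)) := by
  unfold sg
  rw [UpperHalfPlane.sinh_half_dist, Real.sqrt_mul z.im_pos.le, Complex.dist_eq]

theorem sqrt_im_pos (z : ℍ) : 0 < Real.sqrt z.im := Real.sqrt_pos.2 z.im_pos

/-- The hyperbolic form of Ptolemy's inequality. -/
theorem ptolemy (a b c d : ℍ) :
    sg a b * sg c d ≤ sg a c * sg b d + sg a d * sg b c := by
  have ha := sqrt_im_pos a
  have hb := sqrt_im_pos b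
  have hc := sqrt_im_pos c
  have hd := sqrt_im_pos d
  rw [sg_eq, sg_eq, sg_eq, sg_eq, sg_eq, sg_eq]
  set A := Real.sqrt a.im
  set B := Real.sqrt b.im
  set C := Real.sqrt c.im
  set D := Real.sqrt d.im
  have key : ‖(a : ℂ) - b‖ * ‖(c : ℂ) - d‖ ≤
      ‖(a : ℂ) - c‖ * ‖(b : ℂ) - d‖ + ‖(a : ℂ) - d‖ * ‖(b : ℂ) - c‖ := by
    rw [← norm_mul, ← norm_mul, ← norm_mul]
    have : ((a : ℂ) - b) * ((c : ℂ) - d) =
        ((a : ℂ) - c) * ((b : ℂ) - d) - ((a : ℂ) - d) * ((b : ℂ) - c) := by ring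
    rw [this]
    exact norm_sub_le _ _
  have hpos : (0 : ℝ) < 4 * (A * B * C * D) := by positivity
  have e1 : ‖(a : ℂ) - b‖ / (2 * (A * B)) * (‖(c : ℂ) - d‖ / (2 * (C * D))) =
      (‖(a : ℂ) - b‖ * ‖(c : ℂ) - d‖) / (4 * (A * B * C * D)) := by
    rw [div_mul_div_comm]; congr 1; ring
  have e2 : ‖(a : ℂ) - c‖ / (2 * (A * C)) * (‖(b : ℂ) - d‖ / (2 * (B * D))) =
      (‖(a : ℂ) - c‖ * ‖(b : ℂ) - d‖) / (4 * (A * B * C * D)) := by
    rw [div_mul_div_comm]; congr 1; ring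
  have e3 : ‖(a : ℂ) - d‖ / (2 * (A * D)) * (‖(b : ℂ) - c‖ / (2 * (B * C))) =
      (‖(a : ℂ) - d‖ * ‖(b : ℂ) - c‖) / (4 * (A * B * C * D)) := by
    rw [div_mul_div_comm]; congr 1; ring
  rw [e1, e2, e3, ← add_div]
  exact div_le_div_of_nonneg_right key hpos.le

/-- The distance after an inversion at `P`. -/
theorem inv_dist (P x y : ℍ) (hx : (x : ℂ) ≠ P) (hy : (y : ℂ) ≠ P) :
    ‖(2 * (P.im : ℂ)) / ((x : ℂ) - P) - (2 * (P.im : ℂ)) / ((y : ℂ) - P)‖ * (sg x P * sg y P) =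
      sg x y := by
  have hx' : (x : ℂ) - P ≠ 0 := sub_ne_zero.2 hx
  have hy' : (y : ℂ) - P ≠ 0 := sub_ne_zero.2 hy
  have h1 : (2 * (P.im : ℂ)) / ((x : ℂ) - P) - (2 * (P.im : ℂ)) / ((y : ℂ) - P) =
      (2 * (P.im : ℂ)) * ((y : ℂ) - x) / (((x : ℂ) - P) * ((y : ℂ) - P)) := by
    field_simp
    ring
  rw [h1, norm_div, norm_mul, norm_mul, norm_mul, sg_eq, sg_eq, sg_eq]
  have hX := sqrt_im_pos x
  have hY := sqrt_im_pos y
  have hP := sqrt_im_pos P
  have hPP : Real.sqrt P.im * Real.sqrt P.im = P.im := Real.mul_self_sqrt P.im_pos.le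
  have n1 : 0 < ‖(x : ℂ) - P‖ := norm_pos_iff.2 hx'
  have n2 : 0 < ‖(y : ℂ) - P‖ := norm_pos_iff.2 hy'
  have n3 : ‖(y : ℂ) - x‖ = ‖(x : ℂ) - y‖ := norm_sub_rev _ _
  have n4 : ‖(2 : ℂ)‖ = 2 := by norm_num
  have n5 : ‖(P.im : ℂ)‖ = P.im := by
    rw [Complex.norm_real, Real.norm_eq_abs, abs_of_pos P.im_pos]
  rw [n3, n4, n5]
  set A := Real.sqrt x.im
  set B := Real.sqrt y.im
  set C := Real.sqrt P.im
  have hCne : C ≠ 0 := hP.ne'
  have hkey : 2 * P.im * ‖(x : ℂ) - y‖ / (‖(x : ℂ) - P‖ * ‖(y : ℂ) - P‖) *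
      (‖(x : ℂ) - P‖ / (2 * (A * C)) * (‖(y : ℂ) - P‖ / (2 * (B * C)))) =
      (P.im / (C * C)) * (‖(x : ℂ) - y‖ / (2 * (A * B))) := by
    field_simp
  rw [hkey, hPP, div_self P.im_pos.ne', one_mul]

/-- Points of a disk of radius `15 / 2` at pairwise distances more than `1`. -/
theorem packing {ι : Type} (A : Finset ι) (f : ι → ℂ) (q : ℂ)
    (hA : ∀ k ∈ A, ‖f k - q‖ ≤ 15 / 2)
    (hsep : ∀ k ∈ A, ∀ l ∈ A, k ≠ l → 1 < ‖f k - f l‖) : A.card ≤ 484 := by
  classical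
  let g : ι → ℤ × ℤ := fun k =>
    (⌊((f k - q).re + 15 / 2) / (7 / 10)⌋, ⌊((f k - q).im + 15 / 2) / (7 / 10)⌋)
  have hmaps : ∀ k ∈ A, g k ∈ (Finset.Icc (0 : ℤ) 21) ×ˢ (Finset.Icc (0 : ℤ) 21) := by
    intro k hk
    have h1 := hA k hk
    have h2 := (abs_le.1 ((Complex.abs_re_le_norm (f k - q)).trans h1))
    have h3 := (abs_le.1 ((Complex.abs_im_le_norm (f k - q)).trans h1))
    rw [Finset.mem_product, Finset.mem_Icc, Finset.mem_Icc]
    refine ⟨⟨?_, ?_⟩, ⟨?_, ?_⟩⟩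
    · apply Int.floor_nonneg.2; apply div_nonneg <;> linarith [h2.1]
    · apply Int.lt_add_one_iff.1
      apply Int.floor_lt.2
      rw [div_lt_iff₀ (by norm_num)]
      push_cast
      linarith [h2.2]
    · apply Int.floor_nonneg.2; apply div_nonneg <;> linarith [h3.1]
    · apply Int.lt_add_one_iff.1
      apply Int.floor_lt.2
      rw [div_lt_iff₀ (by norm_num)]
      push_cast
      linarith [h3.2]
  have hinj : Set.InjOn g (A : Set ι) := by
    intro k hk l hl hkl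
    by_contra hne
    have h1 := hsep k hk l hl hne
    have e1 : ⌊((f k - q).re + 15 / 2) / (7 / 10)⌋ = ⌊((f l - q).re + 15 / 2) / (7 / 10)⌋ :=
      congrArg Prod.fst hkl
    have e2 : ⌊((f k - q).im + 15 / 2) / (7 / 10)⌋ = ⌊((f l - q).im + 15 / 2) / (7 / 10)⌋ :=
      congrArg Prod.snd hkl
    have a1 := Int.abs_sub_lt_one_of_floor_eq_floor e1
    have a2 := Int.abs_sub_lt_one_of_floor_eq_floor e2
    have b1 : |(f k - f l).re| < 7 / 10 := by
      have : ((f k - q).re + 15 / 2) / (7 / 10) - ((f l - q).re + 15 / 2) / (7 / 10) =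
          (f k - f l).re / (7 / 10) := by
        simp only [Complex.sub_re]; ring
      rw [this, abs_div, abs_of_pos (by norm_num : (0 : ℝ) < 7 / 10),
        div_lt_iff₀ (by norm_num)] at a1
      linarith
    have b2 : |(f k - f l).im| < 7 / 10 := by
      have : ((f k - q).im + 15 / 2) / (7 / 10) - ((f l - q).im + 15 / 2) / (7 / 10) =
          (f k - f l).im / (7 / 10) := by
        simp only [Complex.sub_im]; ring
      rw [this, abs_div, abs_of_pos (by norm_num : (0 : ℝ) < 7 / 10),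
        div_lt_iff₀ (by norm_num)] at a2
      linarith
    have c1 : ‖f k - f l‖ ^ 2 = (f k - f l).re ^ 2 + (f k - f l).im ^ 2 := by
      rw [← Complex.normSq_eq_norm_sq, Complex.normSq_apply]; ring
    have c2 : (f k - f l).re ^ 2 ≤ (7 / 10) ^ 2 := sq_le_sq' (by linarith [(abs_lt.1 b1).1])
      (by linarith [(abs_lt.1 b1).2])
    have c3 : (f k - f l).im ^ 2 ≤ (7 / 10) ^ 2 := sq_le_sq' (by linarith [(abs_lt.1 b2).1])
      (by linarith [(abs_lt.1 b2).2])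
    nlinarith
  have := Finset.card_le_card_of_injOn g hmaps hinj
  simpa using this

/-- Two points with many common neighbours which are pairwise not adjacent are close. -/
theorem close_of_book {ι : Type} [Fintype ι] (hcard : 970 ≤ Fintype.card ι) (S : ℝ) (hS : 0 < S)
    (P Q : ℍ) (s : ι → ℍ) (hP : ∀ k, sg (s k) P ≤ S) (hQ : ∀ k, sg (s k) Q ≤ S)
    (hsep : ∀ k l, k ≠ l → S < sg (s k) (s l)) : 3 * sg P Q ≤ S := by
  classical
  by_contra hcon
  have hcon' : S < 3 * sg P Q := not_le.1 hcon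
  -- the points far from a given endpoint
  have main : ∀ P Q : ℍ, (∀ k, sg (s k) P ≤ S) → (∀ k, sg (s k) Q ≤ S) → S < 3 * sg P Q →
      (Finset.univ.filter (fun k => 2 / 5 * S ≤ sg (s k) P)).card ≤ 484 := by
    intro P Q hP hQ hPQ
    have hPQpos : 0 < sg P Q := by linarith
    have hne : ∀ x : ℍ, 0 < sg x P → (x : ℂ) ≠ P := by
      intro x hx h
      have : x = P := UpperHalfPlane.ext h
      rw [this] at hx
      unfold sg at hx
      simp at hx
    have hQne : (Q : ℂ) ≠ P := hne Q (by rw [sg_comm]; exact hPQpos)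
    apply packing _ (fun k => (S : ℂ) * ((2 * (P.im : ℂ)) / ((s k : ℂ) - P)))
      ((S : ℂ) * ((2 * (P.im : ℂ)) / ((Q : ℂ) - P)))
    · intro k hk
      have hk' : 2 / 5 * S ≤ sg (s k) P := (Finset.mem_filter.1 hk).2
      have hkpos : 0 < sg (s k) P := lt_of_lt_of_le (by positivity) hk'
      have h := inv_dist P (s k) Q (hne _ hkpos) hQne
      rw [← mul_sub, norm_mul, Complex.norm_real, Real.norm_eq_abs, abs_of_pos hS]
      set N := ‖(2 * (P.im : ℂ)) / ((s k : ℂ) - P) - (2 * (P.im : ℂ)) / ((Q : ℂ) - P)‖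
      have hN : 0 ≤ N := norm_nonneg _
      rw [sg_comm Q P] at h
      have h1 : N * (sg (s k) P * sg P Q) ≤ S := by rw [h]; exact hQ k
      have h2 : 2 / 5 * S * (S / 3) ≤ sg (s k) P * sg P Q :=
        mul_le_mul hk' (by linarith) (by positivity) (by linarith)
      have h3 : N * (2 / 5 * S * (S / 3)) ≤ S := (mul_le_mul_of_nonneg_left h2 hN).trans h1
      have h4 : (S * N) * (2 / 15 * S) ≤ (15 / 2) * (2 / 15 * S) := by nlinarith
      exact le_of_mul_le_mul_right h4 (by positivity)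
    · intro k hk l hl hkl
      have hk' : 2 / 5 * S ≤ sg (s k) P := (Finset.mem_filter.1 hk).2
      have hkpos : 0 < sg (s k) P := lt_of_lt_of_le (by positivity) hk'
      have hl' : 2 / 5 * S ≤ sg (s l) P := (Finset.mem_filter.1 hl).2
      have hlpos : 0 < sg (s l) P := lt_of_lt_of_le (by positivity) hl'
      have h := inv_dist P (s k) (s l) (hne _ hkpos) (hne _ hlpos)
      show 1 < ‖(S : ℂ) * ((2 * (P.im : ℂ)) / ((s k : ℂ) - P)) -
        (S : ℂ) * ((2 * (P.im : ℂ)) / ((s l : ℂ) - P))‖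
      rw [← mul_sub, norm_mul, Complex.norm_real, Real.norm_eq_abs, abs_of_pos hS]
      set N := ‖(2 * (P.im : ℂ)) / ((s k : ℂ) - P) - (2 * (P.im : ℂ)) / ((s l : ℂ) - P)‖
      have hN : 0 ≤ N := norm_nonneg _
      have h1 : S < N * (sg (s k) P * sg (s l) P) := by rw [h]; exact hsep k l hkl
      have h2 : sg (s k) P * sg (s l) P ≤ S * S :=
        mul_le_mul (hP k) (hP l) hlpos.le hS.le
      have h3 : S < N * (S * S) := lt_of_lt_of_le h1 (mul_le_mul_of_nonneg_left h2 hN)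
      have h4 : 1 * S < (S * N) * S := by nlinarith
      exact lt_of_mul_lt_mul_right h4 hS.le
  have hA := main P Q hP hQ hcon'
  have hB := main Q P hQ hP (by rw [sg_comm]; exact hcon')
  have hC : (Finset.univ.filter (fun k => sg (s k) P < 2 / 5 * S ∧ sg (s k) Q < 2 / 5 * S)).card
      ≤ 1 := by
    rw [Finset.card_le_one]
    intro k hk l hl
    by_contra hkl
    obtain ⟨-, k1, k2⟩ := Finset.mem_filter.1 hk
    obtain ⟨-, l1, l2⟩ := Finset.mem_filter.1 hl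
    have h := ptolemy (s k) (s l) P Q
    have h0 := hsep k l hkl
    have a1 : sg (s k) P * sg (s l) Q ≤ 2 / 5 * S * (2 / 5 * S) :=
      mul_le_mul k1.le l2.le (sg_nonneg _ _) (by positivity)
    have a2 : sg (s k) Q * sg (s l) P ≤ 2 / 5 * S * (2 / 5 * S) :=
      mul_le_mul k2.le l1.le (sg_nonneg _ _) (by positivity)
    have a3 : S * (S / 3) ≤ sg (s k) (s l) * sg P Q :=
      mul_le_mul h0.le (by linarith) (by positivity) (sg_nonneg _ _)
    have : 0 < S * S := by positivity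
    nlinarith
  have hcover : (Finset.univ : Finset ι) ⊆
      (Finset.univ.filter (fun k => 2 / 5 * S ≤ sg (s k) P)) ∪
      ((Finset.univ.filter (fun k => 2 / 5 * S ≤ sg (s k) Q)) ∪
        (Finset.univ.filter (fun k => sg (s k) P < 2 / 5 * S ∧ sg (s k) Q < 2 / 5 * S))) := by
    intro k _
    simp only [Finset.mem_union, Finset.mem_filter, Finset.mem_univ, true_and]
    by_cases h1 : 2 / 5 * S ≤ sg (s k) P
    · exact Or.inl h1
    · by_cases h2 : 2 / 5 * S ≤ sg (s k) Q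
      · exact Or.inr (Or.inl h2)
      · exact Or.inr (Or.inr ⟨not_le.1 h1, not_le.1 h2⟩)
  have hc1 := Finset.card_le_card hcover
  have hc2 := Finset.card_union_le (Finset.univ.filter (fun k => 2 / 5 * S ≤ sg (s k) P))
    ((Finset.univ.filter (fun k => 2 / 5 * S ≤ sg (s k) Q)) ∪
        (Finset.univ.filter (fun k => sg (s k) P < 2 / 5 * S ∧ sg (s k) Q < 2 / 5 * S)))
  have hc3 := Finset.card_union_le (Finset.univ.filter (fun k => 2 / 5 * S ≤ sg (s k) Q))
    (Finset.univ.filter (fun k => sg (s k) P < 2 / 5 * S ∧ sg (s k) Q < 2 / 5 * S))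
  rw [Finset.card_univ] at hc1
  omega

/-- Growth of the distances along a path of close points whose other distances are large. -/
theorem growth (n : ℕ) (S : ℝ) (hS : 0 < S) (P : ℕ → ℍ)
    (h1 : ∀ i, i < n → 3 * sg (P i) (P (i + 1)) ≤ S)
    (h2 : ∀ i j, i + 2 ≤ j → j ≤ n → S < sg (P i) (P j)) :
    ∀ j, j + 2 ≤ n → 2 ^ j * S ≤ sg (P 0) (P (j + 2)) ∧
      2 * sg (P 0) (P (j + 1)) ≤ sg (P 0) (P (j + 2)) := by
  intro j
  induction j with
  | zero =>
    intro hj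
    have a := h2 0 2 (by omega) (by omega)
    have b := h1 0 (by omega)
    have c := sg_nonneg (P 0) (P 1)
    simp only [pow_zero, one_mul, zero_add]
    refine ⟨a.le, ?_⟩
    simp only [zero_add] at b
    linarith
  | succ j ih =>
    intro hj
    obtain ⟨ih1, ih2⟩ := ih (by omega)
    have hp := ptolemy (P 0) (P (j + 2)) (P (j + 1)) (P (j + 3))
    have a := h2 (j + 1) (j + 3) (by omega) (by omega)
    have b := h1 (j + 1) (by omega)
    have c := h1 (j + 2) (by omega)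
    have d0 := sg_nonneg (P 0) (P (j + 1))
    have d1 := sg_nonneg (P 0) (P (j + 2))
    have d2 := sg_nonneg (P 0) (P (j + 3))
    have e1 : j + 1 + 1 = j + 2 := rfl
    have e2 : j + 2 + 1 = j + 3 := rfl
    have e3 : j + 1 + 2 = j + 3 := rfl
    rw [e1] at b
    rw [e2] at c
    rw [e3, e1]
    rw [sg_comm (P (j + 2)) (P (j + 1))] at hp
    have g1 : sg (P 0) (P (j + 2)) * S ≤ sg (P 0) (P (j + 2)) * sg (P (j + 1)) (P (j + 3)) :=
      mul_le_mul_of_nonneg_left a.le d1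
    have g2 : sg (P 0) (P (j + 1)) * (3 * sg (P (j + 2)) (P (j + 3))) ≤
        sg (P 0) (P (j + 1)) * S := mul_le_mul_of_nonneg_left c d0
    have g3 : sg (P 0) (P (j + 3)) * (3 * sg (P (j + 1)) (P (j + 2))) ≤
        sg (P 0) (P (j + 3)) * S := mul_le_mul_of_nonneg_left b d2
    have g4 : (3 * sg (P 0) (P (j + 2))) * S ≤
        (sg (P 0) (P (j + 1)) + sg (P 0) (P (j + 3))) * S := by nlinarith
    have g5 : 3 * sg (P 0) (P (j + 2)) ≤ sg (P 0) (P (j + 1)) + sg (P 0) (P (j + 3)) :=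
      le_of_mul_le_mul_right g4 hS
    have g6 : 2 * sg (P 0) (P (j + 2)) ≤ sg (P 0) (P (j + 3)) := by linarith
    refine ⟨?_, g6⟩
    rw [pow_succ]
    linarith

/-- A chain of `k` books whose ends have a common neighbour needs a radius linear in `k`. -/
theorem lower {V : Type} (G : SimpleGraph V) (k : ℕ) (hk : 2 ≤ k) (u : V) (p : ℕ → V)
    (s : ℕ → Fin 1000 → V)
    (h1 : G.Adj (p 0) u) (h2 : G.Adj u (p k))
    (h3 : ∀ i, i < k → ∀ j, G.Adj (s i j) (p i))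
    (h4 : ∀ i, i < k → ∀ j, G.Adj (s i j) (p (i + 1)))
    (h5 : ∀ i, i < k → ∀ j j', j ≠ j' → s i j ≠ s i j' ∧ ¬ G.Adj (s i j) (s i j'))
    (h6 : ∀ i j, i + 2 ≤ j → j ≤ k → p i ≠ p j ∧ ¬ G.Adj (p i) (p j))
    (r : ℝ) (q : V → ℍ) (h : IsDiskRep G r q) : ((k : ℝ) - 3) * Real.log 2 ≤ r := by
  obtain ⟨hr, hq⟩ := h
  have hS : 0 < Real.sinh r := Real.sinh_pos_iff.2 hr
  have adj : ∀ a b, G.Adj a b → dist (q a) (q b) ≤ 2 * r := fun a b hab => (hq a b hab.ne).1 hab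
  have adj' : ∀ a b, G.Adj a b → sg (q a) (q b) ≤ Real.sinh r := by
    intro a b hab
    have := adj a b hab
    unfold sg
    exact Real.sinh_le_sinh.2 (by linarith)
  have nadj : ∀ a b, a ≠ b → ¬ G.Adj a b → Real.sinh r < sg (q a) (q b) := by
    intro a b hne hab
    have := not_le.1 (mt (hq a b hne).2 hab)
    unfold sg
    exact Real.sinh_lt_sinh.2 (by linarith)
  have g := growth k (Real.sinh r) hS (fun i => q (p i)) (by
      intro i hi
      apply close_of_book (ι := Fin 1000) (by simp) (Real.sinh r) hS (q (p i)) (q (p (i + 1)))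
        (fun j => q (s i j))
      · exact fun j => adj' _ _ (h3 i hi j)
      · exact fun j => adj' _ _ (h4 i hi j)
      · exact fun j j' hjj' => nadj _ _ (h5 i hi j j' hjj').1 (h5 i hi j j' hjj').2) (by
      intro i j hij hj
      exact nadj _ _ (h6 i j hij hj).1 (h6 i j hij hj).2) (k - 2) (by omega)
  obtain ⟨g, -⟩ := g
  have e : k - 2 + 2 = k := by omega
  simp only [e] at g
  have t : dist (q (p 0)) (q (p k)) ≤ 4 * r := by
    have := dist_triangle (q (p 0)) (q u) (q (p k))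
    linarith [adj _ _ h1, adj _ _ h2]
  have t2 : sg (q (p 0)) (q (p k)) ≤ 2 * Real.sinh r * Real.cosh r := by
    rw [← Real.sinh_two_mul]
    unfold sg
    exact Real.sinh_le_sinh.2 (by linarith)
  have t3 : (2 : ℝ) ^ (k - 2) * Real.sinh r ≤ (2 * Real.cosh r) * Real.sinh r := by linarith
  have t4 : (2 : ℝ) ^ (k - 2) ≤ 2 * Real.cosh r := le_of_mul_le_mul_right t3 hS
  have t5 : Real.cosh r ≤ Real.exp r := by
    rw [Real.cosh_eq]
    have : Real.exp (-r) ≤ Real.exp r := Real.exp_le_exp.2 (by linarith)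
    linarith
  have t6 : (2 : ℝ) ^ (k - 2) ≤ 2 * Real.exp r := by linarith
  have t7 : Real.log ((2 : ℝ) ^ (k - 2)) ≤ Real.log (2 * Real.exp r) :=
    Real.log_le_log (by positivity) t6
  rw [Real.log_pow, Real.log_mul (by norm_num) (Real.exp_pos r).ne', Real.log_exp] at t7
  have t8 : ((k - 2 : ℕ) : ℝ) = (k : ℝ) - 2 := by
    rw [Nat.cast_sub hk]; norm_num
  rw [t8] at t7
  linarith

theorem dist_le_iff (z w : ℍ) (r : ℝ) (hr : 0 < r) :
    dist z w ≤ 2 * r ↔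
      (z.re - w.re) ^ 2 + (z.im - w.im) ^ 2 ≤ 4 * Real.sinh r ^ 2 * (z.im * w.im) := by
  have h1 : dist z w ≤ 2 * r ↔ Real.cosh (dist z w) ≤ Real.cosh (2 * r) := by
    rw [Real.cosh_le_cosh, abs_of_nonneg dist_nonneg, abs_of_pos (by linarith)]
  have hz := z.im_pos
  have hw := w.im_pos
  have h2 : dist (z : ℂ) w ^ 2 = (z.re - w.re) ^ 2 + (z.im - w.im) ^ 2 := by
    rw [Complex.dist_eq, ← Complex.normSq_eq_norm_sq, Complex.normSq_apply]
    simp only [Complex.sub_re, Complex.sub_im, UpperHalfPlane.coe_re, UpperHalfPlane.coe_im]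
    ring
  have h3 : Real.cosh r ^ 2 = 1 + Real.sinh r ^ 2 := by rw [Real.cosh_sq']
  rw [h1, UpperHalfPlane.cosh_dist, Real.cosh_two_mul, h3, h2]
  have h4 : (1 : ℝ) + Real.sinh r ^ 2 + Real.sinh r ^ 2 = 1 + 2 * Real.sinh r ^ 2 := by ring
  rw [h4, add_le_add_iff_left, div_le_iff₀ (by positivity)]
  constructor
  · intro h; linarith
  · intro h; linarith

theorem condA (L D a : ℝ) (hL3 : 64 ≤ L ^ 3) (hD1 : 1 ≤ D) (ha1 : 1 ≤ a) (haD : a ≤ D) :
    (a - 0) ^ 2 + (a / D - 1) ^ 2 ≤ L ^ 6 * D ^ 2 * (a / D * 1) := by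
  have hD0 : 0 < D := by linarith
  have e1 : L ^ 6 * D ^ 2 * (a / D * 1) = L ^ 6 * (a * D) := by field_simp
  rw [e1]
  have b1 : 0 ≤ a / D := by positivity
  have b2 : a / D ≤ 1 := (div_le_one hD0).2 haD
  have b3 : (a / D - 1) ^ 2 ≤ 1 := by
    rw [sq_le_one_iff_abs_le_one, abs_le]; constructor <;> linarith
  have b4 : (2 : ℝ) ≤ L ^ 6 := by
    have : L ^ 6 = L ^ 3 * L ^ 3 := by ring
    nlinarith
  have b5 : a ^ 2 ≤ a * D := by nlinarith
  have b6 : 1 ≤ a * D := by nlinarith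
  have b7 : 2 * (a * D) ≤ L ^ 6 * (a * D) := mul_le_mul_of_nonneg_right b4 (by linarith)
  rw [sub_zero]
  linarith

theorem condB (L K D a w : ℝ) (hK : K = L ^ 2) (hK1 : 16 ≤ K) (hD1 : 1 ≤ D) (ha0 : 0 < a)
    (hw1 : K ^ 4 ≤ w) :
    L ^ 6 * D ^ 2 * (a / D * (a * w / D)) < (a - a * w) ^ 2 + (a / D - a * w / D) ^ 2 := by
  have hD0 : 0 < D := by linarith
  have e1 : L ^ 6 * D ^ 2 * (a / D * (a * w / D)) = a ^ 2 * (K ^ 3 * w) := by
    rw [hK]; field_simp
  rw [e1]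
  have b0 : (0 : ℝ) ≤ (a / D - a * w / D) ^ 2 := sq_nonneg _
  have b1 : K ^ 3 * w < (1 - w) ^ 2 := by
    have c1 : K ^ 3 + 2 ≤ w := by
      have h4 : K ^ 4 = K * K ^ 3 := by ring
      have h3 : (1 : ℝ) ≤ K ^ 3 := one_le_pow₀ (by linarith)
      have h5 : 16 * K ^ 3 ≤ K * K ^ 3 := mul_le_mul_of_nonneg_right hK1 (by linarith)
      linarith
    have h3 : (1 : ℝ) ≤ K ^ 3 := one_le_pow₀ (by linarith)
    have c2 : 0 < w := by linarith
    have c3 : (K ^ 3 + 2) * w ≤ w * w := mul_le_mul_of_nonneg_right c1 c2.le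
    have c4 : (1 - w) ^ 2 = w * w - 2 * w + 1 := by ring
    rw [c4]
    linarith
  have b2 : a ^ 2 * (K ^ 3 * w) < a ^ 2 * (1 - w) ^ 2 := mul_lt_mul_of_pos_left b1 (by positivity)
  have b3 : (a - a * w) ^ 2 = a ^ 2 * (1 - w) ^ 2 := by ring
  rw [b3]
  linarith

theorem condC1 (L K D a x : ℝ) (hL0 : 0 < L) (hK0 : 0 < K) (hD1 : 1 ≤ D)
    (hKLD : K ≤ 2 * L ^ 3 * D) (hbig : (1001 * K) ^ 2 + 1 ≤ L ^ 3 * K / 2) (hK1 : 16 ≤ K)
    (hx1 : 1 ≤ x) (hx2 : x ≤ 1000) :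
    (-x * (a * K) - a) ^ 2 + (a * K / (2 * L ^ 3 * D) - a / D) ^ 2 ≤
      L ^ 6 * D ^ 2 * (a * K / (2 * L ^ 3 * D) * (a / D)) := by
  have hD0 : 0 < D := by linarith
  have e1 : L ^ 6 * D ^ 2 * (a * K / (2 * L ^ 3 * D) * (a / D)) = a ^ 2 * (L ^ 3 * K / 2) := by
    field_simp
  have e2 : (-x * (a * K) - a) ^ 2 + (a * K / (2 * L ^ 3 * D) - a / D) ^ 2 =
      a ^ 2 * ((x * K + 1) ^ 2 + (K / (2 * L ^ 3 * D) - 1 / D) ^ 2) := by
    field_simp
    ring
  rw [e1, e2]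
  apply mul_le_mul_of_nonneg_left _ (sq_nonneg a)
  have c1 : 0 ≤ K / (2 * L ^ 3 * D) := by positivity
  have c2 : K / (2 * L ^ 3 * D) ≤ 1 := by
    rw [div_le_one (by positivity)]
    exact hKLD
  have c3 : 0 ≤ 1 / D := by positivity
  have c4 : 1 / D ≤ 1 := by rw [div_le_one hD0]; exact hD1
  have c5 : (K / (2 * L ^ 3 * D) - 1 / D) ^ 2 ≤ 1 := by
    rw [sq_le_one_iff_abs_le_one, abs_le]; constructor <;> linarith
  have c6 : x * K + 1 ≤ 1001 * K := by
    have := mul_le_mul_of_nonneg_right hx2 hK0.le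
    linarith
  have c7 : (x * K + 1) ^ 2 ≤ (1001 * K) ^ 2 := by
    apply pow_le_pow_left₀ _ c6; positivity
  linarith

theorem condC2 (L K D a x : ℝ) (hL0 : 0 < L) (hL3 : 64 ≤ L ^ 3) (hK0 : 0 < K) (hD1 : 1 ≤ D)
    (hKD : K ≤ D) (hbig : (1001 * K) ^ 2 + 1 ≤ L ^ 3 * K / 2) (hK1 : 16 ≤ K)
    (hx1 : 1 ≤ x) (hx2 : x ≤ 1000) :
    (-x * (a * K) - a * K ^ 2) ^ 2 + (a * K / (2 * L ^ 3 * D) - a * K ^ 2 / D) ^ 2 ≤
      L ^ 6 * D ^ 2 * (a * K / (2 * L ^ 3 * D) * (a * K ^ 2 / D)) := by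
  have hD0 : 0 < D := by linarith
  have e1 : L ^ 6 * D ^ 2 * (a * K / (2 * L ^ 3 * D) * (a * K ^ 2 / D)) =
      (a ^ 2 * K ^ 2) * (L ^ 3 * K / 2) := by
    field_simp
  have e2 : (-x * (a * K) - a * K ^ 2) ^ 2 + (a * K / (2 * L ^ 3 * D) - a * K ^ 2 / D) ^ 2 =
      (a ^ 2 * K ^ 2) * ((x + K) ^ 2 + (1 / (2 * L ^ 3 * D) - K / D) ^ 2) := by
    field_simp
    ring
  rw [e1, e2]
  apply mul_le_mul_of_nonneg_left _ (by positivity)
  have c1 : 0 ≤ 1 / (2 * L ^ 3 * D) := by positivity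
  have c2 : 1 / (2 * L ^ 3 * D) ≤ 1 := by
    rw [div_le_one (by positivity)]
    have h1 : 1 * D ≤ (2 * L ^ 3) * D := mul_le_mul_of_nonneg_right (by linarith) hD0.le
    linarith
  have c3 : 0 ≤ K / D := by positivity
  have c4 : K / D ≤ 1 := by rw [div_le_one hD0]; exact hKD
  have c5 : (1 / (2 * L ^ 3 * D) - K / D) ^ 2 ≤ 1 := by
    rw [sq_le_one_iff_abs_le_one, abs_le]; constructor <;> linarith
  have c6 : x + K ≤ 1001 * K := by linarith
  have c7 : (x + K) ^ 2 ≤ (1001 * K) ^ 2 := by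
    apply pow_le_pow_left₀ _ c6; positivity
  linarith

theorem condD (L K D a : ℝ) (j j' : ℕ) (hjj' : j ≠ j') (hL0 : 0 < L) (hK0 : 0 < K) (hD1 : 1 ≤ D)
    (ha0 : 0 < a) :
    L ^ 6 * D ^ 2 * (a * K / (2 * L ^ 3 * D) * (a * K / (2 * L ^ 3 * D))) <
      (-((j : ℝ) + 1) * (a * K) - -((j' : ℝ) + 1) * (a * K)) ^ 2 +
        (a * K / (2 * L ^ 3 * D) - a * K / (2 * L ^ 3 * D)) ^ 2 := by
  have hD0 : 0 < D := by linarith
  have e1 : L ^ 6 * D ^ 2 * (a * K / (2 * L ^ 3 * D) * (a * K / (2 * L ^ 3 * D))) =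
      (a * K) ^ 2 * (1 / 4) := by
    field_simp
    ring
  have e2 : (-((j : ℝ) + 1) * (a * K) - -((j' : ℝ) + 1) * (a * K)) ^ 2 =
      (a * K) ^ 2 * ((j : ℝ) - j') ^ 2 := by ring
  rw [e1, e2, sub_self]
  have c1 : (1 : ℝ) ≤ ((j : ℝ) - j') ^ 2 := by
    have h1 : (1 : ℤ) ≤ |(j : ℤ) - j'| := Int.one_le_abs (by omega)
    have h2 : (1 : ℝ) ≤ |(j : ℝ) - j'| := by exact_mod_cast h1
    rw [← sq_abs]
    nlinarith
  have c2 : 0 < (a * K) ^ 2 := by positivity
  have c3 : (a * K) ^ 2 * 1 ≤ (a * K) ^ 2 * ((j : ℝ) - j') ^ 2 :=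
    mul_le_mul_of_nonneg_left c1 c2.le
  linarith

/-- The points of the graph. -/
theorem points (k : ℕ) : ∃ (r : ℝ) (U : ℍ) (P : ℕ → ℍ) (Q : ℕ → ℕ → ℍ), 0 < r ∧
    (∀ i, i ≤ k → dist (P i) U ≤ 2 * r) ∧
    (∀ i j, i + 2 ≤ j → 2 * r < dist (P i) (P j)) ∧
    (∀ i j, j < 1000 → dist (Q i j) (P i) ≤ 2 * r) ∧
    (∀ i j, j < 1000 → dist (Q i j) (P (i + 1)) ≤ 2 * r) ∧
    (∀ i j j', j ≠ j' → 2 * r < dist (Q i j) (Q i j')) := by
  obtain ⟨L, hL⟩ : ∃ L : ℝ, 4 * 1001 ^ 2 ≤ L := ⟨_, le_rfl⟩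
  have hL1 : (4 : ℝ) ≤ L := le_trans (by norm_num) hL
  have hL0 : 0 < L := by linarith
  have hL3 : (64 : ℝ) ≤ L ^ 3 := by
    have := pow_le_pow_left₀ (by norm_num) hL1 3
    linarith
  obtain ⟨K, hK⟩ : ∃ K : ℝ, K = L ^ 2 := ⟨_, rfl⟩
  have hK1 : (16 : ℝ) ≤ K := by nlinarith
  have hK0 : 0 < K := by linarith
  obtain ⟨D, hD⟩ : ∃ D : ℝ, D = K ^ (2 * k + 2) := ⟨_, rfl⟩
  have hDK : K ^ 2 ≤ D := by
    rw [hD]; exact pow_le_pow_right₀ (by linarith) (by omega)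
  have hKD : K ≤ D := by
    have : K ≤ K ^ 2 := by nlinarith
    linarith
  have hD1 : 1 ≤ D := by linarith
  have hD0 : 0 < D := by linarith
  have hKLD : K ≤ 2 * L ^ 3 * D := by
    have h1 : 1 * D ≤ (2 * L ^ 3) * D := mul_le_mul_of_nonneg_right (by linarith) hD0.le
    linarith
  have hbig : (1001 * K) ^ 2 + 1 ≤ L ^ 3 * K / 2 := by
    have h1 : L ^ 3 * K / 2 = L * K ^ 2 / 2 := by rw [hK]; ring
    have h2 : (4 * 1001 ^ 2) * K ^ 2 ≤ L * K ^ 2 := mul_le_mul_of_nonneg_right hL (by positivity)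
    have h3 : 1 ≤ K ^ 2 := one_le_pow₀ (by linarith)
    rw [h1]
    linarith
  have hr : 0 < Real.arsinh (L ^ 3 * D / 2) := Real.arsinh_pos_iff.2 (by positivity)
  have hsq : 4 * Real.sinh (Real.arsinh (L ^ 3 * D / 2)) ^ 2 = L ^ 6 * D ^ 2 := by
    rw [Real.sinh_arsinh]; ring
  have hapos : ∀ i : ℕ, 0 < K ^ (2 * i) := fun i => by positivity
  refine ⟨Real.arsinh (L ^ 3 * D / 2), ⟨⟨0, 1⟩, one_pos⟩,
    fun i => ⟨⟨K ^ (2 * i), K ^ (2 * i) / D⟩, div_pos (hapos i) hD0⟩,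
    fun i j => ⟨⟨-((j : ℝ) + 1) * (K ^ (2 * i) * K), K ^ (2 * i) * K / (2 * L ^ 3 * D)⟩,
      div_pos (mul_pos (hapos i) hK0) (by positivity)⟩, hr, ?_, ?_, ?_, ?_, ?_⟩
  · intro i hi
    have haD : K ^ (2 * i) ≤ D := by
      rw [hD]; exact pow_le_pow_right₀ (by linarith) (by omega)
    rw [dist_le_iff _ _ _ hr, hsq]
    exact condA L D _ hL3 hD1 (one_le_pow₀ (by linarith)) haD
  · intro i j hij
    rw [← not_le, dist_le_iff _ _ _ hr, hsq, not_le]
    obtain ⟨t, rfl⟩ : ∃ t, j = i + 2 + t := ⟨j - (i + 2), by omega⟩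
    have e0 : K ^ (2 * (i + 2 + t)) = K ^ (2 * i) * (K ^ 4 * K ^ (2 * t)) := by
      rw [← pow_add, ← pow_add]; congr 1; ring
    have ht : 1 ≤ K ^ (2 * t) := one_le_pow₀ (by linarith)
    simp only [e0]
    exact condB L K D _ _ hK hK1 hD1 (hapos i) (le_mul_of_one_le_right (by positivity) ht)
  · intro i j hj
    rw [dist_le_iff _ _ _ hr, hsq]
    have hx1 : (1 : ℝ) ≤ (j : ℝ) + 1 := by linarith [Nat.cast_nonneg (α := ℝ) j]
    have hx2 : (j : ℝ) + 1 ≤ 1000 := by exact_mod_cast hj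
    exact condC1 L K D _ _ hL0 hK0 hD1 hKLD hbig hK1 hx1 hx2
  · intro i j hj
    rw [dist_le_iff _ _ _ hr, hsq]
    have e0 : K ^ (2 * (i + 1)) = K ^ (2 * i) * K ^ 2 := by
      rw [← pow_add]; congr 1
    have hx1 : (1 : ℝ) ≤ (j : ℝ) + 1 := by linarith [Nat.cast_nonneg (α := ℝ) j]
    have hx2 : (j : ℝ) + 1 ≤ 1000 := by exact_mod_cast hj
    simp only [e0]
    exact condC2 L K D _ _ hL0 hL3 hK0 hD1 hKD hbig hK1 hx1 hx2
  · intro i j j' hjj'
    rw [← not_le, dist_le_iff _ _ _ hr, hsq, not_le]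
    exact condD L K D _ j j' hjj' hL0 hK0 hD1 (hapos i)

/-- For `1001 k + 2 ≤ n` there is a hyperbolic uniform disk graph on `n` vertices which needs a radius
of at least `(k - 3) log 2`. -/
theorem exists_graph (k n : ℕ) (hk : 2 ≤ k) (hn : 1001 * k + 2 ≤ n) :
    ∃ G : SimpleGraph (Fin n), IsHUDG G ∧
      ∀ (r : ℝ) (q : Fin n → ℍ), IsDiskRep G r q → ((k : ℝ) - 3) * Real.log 2 ≤ r := by
  obtain ⟨r, U, P, Q, hr, hA, hB, hC1, hC2, hD⟩ := points k
  have hcard : Fintype.card (Unit ⊕ Fin (k + 1) ⊕ (Fin k × Fin 1000)) ≤ Fintype.card (Fin n) := by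
    simp only [Fintype.card_sum, Fintype.card_prod, Fintype.card_fin, Fintype.card_unit]
    omega
  obtain ⟨e⟩ := Function.Embedding.nonempty_of_card_le hcard
  let f : Unit ⊕ Fin (k + 1) ⊕ (Fin k × Fin 1000) → ℍ :=
    Sum.elim (fun _ => U) (Sum.elim (fun i => P i) (fun x => Q x.1 x.2))
  let g : Fin n → ℍ := Function.extend e f (fun _ => U)
  have hg : ∀ v, g (e v) = f v := fun v => Function.Injective.extend_apply e.injective _ _ v
  let G : SimpleGraph (Fin n) :=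
    { Adj := fun a b => a ≠ b ∧ dist (g a) (g b) ≤ 2 * r
      symm := ⟨fun a b h => ⟨h.1.symm, by rw [dist_comm]; exact h.2⟩⟩
      loopless := ⟨fun a h => h.1 rfl⟩ }
  have hG : ∀ a b, G.Adj a b ↔ a ≠ b ∧ dist (g a) (g b) ≤ 2 * r := fun a b => Iff.rfl
  refine ⟨G, ⟨r, g, hr, fun a b hab => ?_⟩, fun r' q hq => ?_⟩
  · rw [hG]
    exact ⟨fun h => h.2, fun h => ⟨hab, h⟩⟩
  · have hk0 : 0 < k := by omega
    let vu : Fin n := e (Sum.inl ())
    let vp : ℕ → Fin n := fun i => e (Sum.inr (Sum.inl ⟨min i k, by omega⟩))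
    let vs : ℕ → Fin 1000 → Fin n := fun i j =>
      e (Sum.inr (Sum.inr (⟨min i (k - 1), by omega⟩, j)))
    have gu : g vu = U := hg _
    have gp : ∀ i, i ≤ k → g (vp i) = P i := by
      intro i hi
      have : g (vp i) = P (min i k) := hg _
      rw [this, min_eq_left hi]
    have gs : ∀ i, i < k → ∀ j, g (vs i j) = Q i j := by
      intro i hi j
      have : g (vs i j) = Q (min i (k - 1)) j := hg _
      rw [this, min_eq_left (by omega)]
    refine lower G k hk vu vp vs ?_ ?_ ?_ ?_ ?_ ?_ r' q hq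
    · rw [hG]
      refine ⟨?_, ?_⟩
      · intro h
        have := e.injective h
        simp at this
      · rw [gp 0 (by omega), gu]
        exact hA 0 (by omega)
    · rw [hG]
      refine ⟨?_, ?_⟩
      · intro h
        have := e.injective h
        simp at this
      · rw [gp k le_rfl, gu, dist_comm]
        exact hA k le_rfl
    · intro i hi j
      rw [hG]
      refine ⟨?_, ?_⟩
      · intro h
        have := e.injective h
        simp at this
      · rw [gp i hi.le, gs i hi]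
        exact hC1 i j j.2
    · intro i hi j
      rw [hG]
      refine ⟨?_, ?_⟩
      · intro h
        have := e.injective h
        simp at this
      · rw [gp (i + 1) hi, gs i hi]
        exact hC2 i j j.2
    · intro i hi j j' hjj'
      refine ⟨?_, ?_⟩
      · intro h
        have := e.injective h
        simp only [Sum.inr.injEq, Prod.mk.injEq, true_and] at this
        exact hjj' this
      · rw [hG, gs i hi, gs i hi]
        intro h
        exact absurd h.2 (not_le.2 (hD i j j' (fun h => hjj' (Fin.ext h))))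
    · intro i j hij hj
      refine ⟨?_, ?_⟩
      · intro h
        have := e.injective h
        simp only [Sum.inr.injEq, Sum.inl.injEq, Fin.mk.injEq] at this
        omega
      · rw [hG, gp i (by omega), gp j hj]
        intro h
        exact absurd h.2 (not_le.2 (hB i j hij))

theorem exists_linear (n : ℕ) (hn : 4006 ≤ n) :
    ∃ G : SimpleGraph (Fin n), IsHUDG G ∧
      ∀ (r : ℝ) (q : Fin n → ℍ), IsDiskRep G r q → (n : ℝ) / 8000 ≤ r := by
  obtain ⟨k, hk⟩ : ∃ k, k = (n - 2) / 1001 := ⟨_, rfl⟩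
  have h1 : 1001 * k + 2 ≤ n := by omega
  have h2 : n ≤ 1001 * k + 1002 := by omega
  have h3 : 4 ≤ k := by omega
  obtain ⟨G, hG, h⟩ := exists_graph k n (by omega) h1
  refine ⟨G, hG, fun r q hq => ?_⟩
  have h4 := h r q hq
  have h5 : (n : ℝ) ≤ 1001 * k + 1002 := by exact_mod_cast h2
  have h6 : (4 : ℝ) ≤ k := by exact_mod_cast h3
  have h7 := Real.log_two_gt_d9
  have h8 : ((k : ℝ) - 3) * 0.69 ≤ ((k : ℝ) - 3) * Real.log 2 :=
    mul_le_mul_of_nonneg_left (by linarith) (by linarith)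
  linarith

/-- The theorem: for every `n ≥ 4006` there is a hyperbolic uniform disk graph with `n` vertices all
of whose disk representations have radius at least `n / 8000`. Hence for every `C > 0` there is a
hyperbolic uniform disk graph with some number `n ≥ 2` of vertices which has no disk
representation with radius at most `C log n`. -/
theorem result :
    (∀ n : ℕ, 4006 ≤ n → ∃ G : SimpleGraph (Fin n), IsHUDG G ∧
      ∀ (r : ℝ) (p : Fin n → ℍ), IsDiskRep G r p → (n : ℝ) / 8000 ≤ r) ∧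
    (∀ C : ℝ, 0 < C → ∃ n : ℕ, 2 ≤ n ∧ ∃ G : SimpleGraph (Fin n), IsHUDG G ∧
      ¬ ∃ (r : ℝ) (p : Fin n → ℍ), IsDiskRep G r p ∧ r ≤ C * Real.log n) := by
  refine ⟨exists_linear, fun C hC => ?_⟩
  have h1 := Real.isLittleO_log_id_atTop.def (c := 1 / (16000 * C)) (by positivity)
  have h2 := (tendsto_natCast_atTop_atTop (R := ℝ)).eventually h1
  obtain ⟨n, hn1, hn2⟩ := (h2.and (Filter.eventually_ge_atTop 4006)).exists
  obtain ⟨G, hG, h⟩ := exists_linear n hn2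
  refine ⟨n, by omega, G, hG, ?_⟩
  rintro ⟨r, p, hp, hr⟩
  have h3 := h r p hp
  have hn3 : (4006 : ℝ) ≤ n := by exact_mod_cast hn2
  have h4 : Real.log n ≤ 1 / (16000 * C) * n := by
    have h5 := (le_abs_self _).trans hn1
    simpa using h5
  have h6 : C * Real.log n ≤ C * (1 / (16000 * C) * n) := mul_le_mul_of_nonneg_left h4 hC.le
  have h7 : C * (1 / (16000 * C) * n) = n / 16000 := by field_simp
  rw [h7] at h6
  linarith

end Pool.Agent.Results.MP_1ad87a_co.LinearRadius
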